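import Pool.Agent.KS6_2.MT.Gr

/-! # Classification of the perfect matchings -/

namespace Pool.Agent.KS6_2.MT

open Finset

variable {n : ℕ} {M : Finset (Sym2 (V n))}

lemma perf_ex (hM : IsPerf (Gr n) M) (v : V n) : ∃ x : Ed n, en x ∈ M ∧ v ∈ en x := by
  obtain ⟨x, hx, hv⟩ := hM.2 v
  obtain ⟨z, rfl⟩ := (mem_Gr x).1 (hM.1.1 x hx)
  exact ⟨z, hx, hv⟩

lemma perf_un (hM : IsPerf (Gr n) M) (v : V n) {x z : Ed n} (hx : en x ∈ M) (hz : en z ∈ M)
    (hvx : v ∈ en x) (hvz : v ∈ en z) : x = z := by
  by_contra hne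
  exact hM.1.2 _ hx _ hz (fun h => hne (en_inj h)) v hvx hvz

lemma mem_c {j : Fin (n + 3)} {x : Ed n} (h : V.c j ∈ en x) : (∃ b, x = .A b j) ∨ x = .C j := by
  cases x <;> simp [en] at h ⊢ <;> exact h.symm

lemma mem_w {j : Fin (n + 3)} {x : Ed n} (h : V.w j ∈ en x) :
    x = .C j ∨ x = .D j ∨ ∃ i, i + 1 = j ∧ x = .D i := by
  cases x with
  | C i => simp [en] at h ⊢; exact h.symm
  | D i =>
    simp only [en, Sym2.mem_iff, V.w.injEq] at h
    rcases h with rfl | rfl
    · right; left; rfl
    · right; right; exact ⟨i, rfl, rfl⟩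
  | _ => simp [en] at h

lemma mem_e {b : Bool} {j : Fin (n + 3)} {x : Ed n} (h : V.e b j ∈ en x) :
    x = .A b j ∨ (∃ i : Fin (n + 2), i.castSucc = j ∧ x = .U b i) ∨
      (∃ i : Fin (n + 2), i.succ = j ∧ x = .T b i) := by
  cases x with
  | A b' i => simp [en] at h ⊢; exact ⟨h.1.symm, h.2.symm⟩
  | U b' i =>
    simp only [en, Sym2.mem_iff, V.e.injEq, reduceCtorEq, or_false] at h
    obtain ⟨rfl, rfl⟩ := h
    right; left; exact ⟨i, rfl, rfl⟩
  | T b' i =>
    simp only [en, Sym2.mem_iff, V.e.injEq, reduceCtorEq, false_or] at h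
    obtain ⟨rfl, rfl⟩ := h
    right; right; exact ⟨i, rfl, rfl⟩
  | _ => simp [en] at h

lemma mem_y {b : Bool} {j : Fin (n + 2)} {x : Ed n} (h : V.y b j ∈ en x) :
    x = .U b j ∨ x = .T b j := by
  cases x with
  | U b' i => simp [en] at h ⊢; exact ⟨h.1.symm, h.2.symm⟩
  | T b' i => simp [en] at h ⊢; exact ⟨h.1.symm, h.2.symm⟩
  | _ => simp [en] at h

lemma path (hM : IsPerf (Gr n) M) (b : Bool) : ∃ a : Fin (n + 3), ∀ _x : Ed n,
    (∀ j, en (.A b j) ∈ M ↔ j = a) ∧ (∀ j : Fin (n + 2), (en (.U b j) ∈ M ↔ j.castSucc < a)) ∧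
      ∀ j : Fin (n + 2), (en (.T b j) ∈ M ↔ a ≤ j.castSucc) := by
  classical
  have hUT : ∀ j, en (.U b j) ∈ M ↔ en (.T b j) ∉ M := by
    intro j
    constructor
    · intro h1 h2
      have := perf_un hM (.y b j) h1 h2 (by simp [en]) (by simp [en])
      simp at this
    · intro h1
      obtain ⟨x, hx, hv⟩ := perf_ex hM (.y b j)
      rcases mem_y hv with rfl | rfl
      · exact hx
      · exact absurd hx h1
  have hex : ∃ m : ℕ, ∀ h : m < n + 2, en (.U b ⟨m, h⟩) ∉ M := ⟨n + 2, fun h => absurd h (by omega)⟩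
  have hle : Nat.find hex ≤ n + 2 := Nat.find_min' hex fun h => absurd h (by omega)
  have hlo : ∀ m (h : m < n + 2), m < Nat.find hex → en (.U b ⟨m, h⟩) ∈ M := by
    intro m h hm
    have := Nat.find_min hex hm
    push Not at this
    exact this.2
  have hhi : ∀ m, Nat.find hex ≤ m → ∀ h : m < n + 2, en (.U b ⟨m, h⟩) ∉ M := by
    intro m hm
    induction m, hm using Nat.le_induction with
    | base => exact Nat.find_spec hex
    | succ m hm ih =>
      intro h hU
      have h1 := ih (by omega)
      have h2 : en (.T b ⟨m, by omega⟩) ∈ M := by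
        by_contra h3
        exact h1 ((hUT _).2 h3)
      have := perf_un hM (.e b ⟨m + 1, by omega⟩) hU h2 (by simp [en]) (by simp [en])
      simp at this
  have hU : ∀ j : Fin (n + 2), (en (.U b j) ∈ M ↔ (j : ℕ) < Nat.find hex) := by
    intro j
    constructor
    · intro h
      by_contra hn
      exact hhi j (not_lt.1 hn) j.2 h
    · exact hlo j j.2
  refine ⟨⟨Nat.find hex, by omega⟩, fun _ => ⟨?_, ?_, ?_⟩⟩
  · intro j
    constructor
    · intro h
      by_contra hne
      rcases lt_or_gt_of_ne (fun h' => hne (Fin.ext h') : (j : ℕ) ≠ Nat.find hex) with h1 | h1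
      · have h2 := hlo j (by omega) h1
        have := perf_un hM (.e b j) h h2 (by simp [en]) (by simp [en])
        simp at this
      · have h2 := hhi ((j : ℕ) - 1) (by omega) (by omega)
        have h3 : en (.T b ⟨(j : ℕ) - 1, by omega⟩) ∈ M := by
          by_contra h3
          exact h2 ((hUT _).2 h3)
        have := perf_un hM (.e b j) h h3 (by simp [en]) (by
          simp only [en, Sym2.mem_iff, reduceCtorEq, false_or, V.e.injEq, true_and]
          apply Fin.ext
          simp only [Fin.val_succ]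
          omega)
        simp at this
    · rintro rfl
      obtain ⟨x, hx, hv⟩ := perf_ex hM (.e b ⟨Nat.find hex, by omega⟩)
      rcases mem_e hv with rfl | ⟨i, hi, rfl⟩ | ⟨i, hi, rfl⟩
      · exact hx
      · exfalso
        have h1 := (hU i).1 hx
        have h2 := congrArg Fin.val hi
        simp at h2
        omega
      · exfalso
        have h2 := congrArg Fin.val hi
        simp only [Fin.val_succ] at h2
        have h1 := (hU i).2 (by omega)
        exact (hUT i).1 h1 hx
  · intro j
    rw [hU j]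
    rfl
  · intro j
    rw [Fin.le_def]
    have := hU j
    have h2 := hUT j
    simp only [Fin.val_castSucc]
    constructor
    · intro h
      by_contra hn
      exact h2.1 (this.2 (by omega)) h
    · intro h
      by_contra hn
      have := this.1 (h2.2 hn)
      omega

/-- **The perfect matchings.** -/
theorem classify (hM : IsPerf (Gr n) M) : ∃ a i, Ori a i ∧ M = NN a i := by
  have hp := fun b => path hM b
  choose a ha using hp
  have hA : ∀ b j, en (.A b j) ∈ M ↔ j = a b := fun b j => (ha b (.C 0)).1 j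
  have hU : ∀ b j, en (.U b j) ∈ M ↔ j.castSucc < a b := fun b j => (ha b (.C 0)).2.1 j
  have hT : ∀ b j, en (.T b j) ∈ M ↔ a b ≤ j.castSucc := fun b j => (ha b (.C 0)).2.2 j
  have hne : a false ≠ a true := by
    intro h
    have := perf_un hM (.c (a false)) ((hA false _).2 rfl) ((hA true _).2 h) (by simp [en])
      (by simp [en])
    simp at this
  have hC : ∀ j, en (.C j) ∈ M ↔ j ≠ a false ∧ j ≠ a true := by
    intro j
    constructor
    · intro h
      constructor
      · rintro rfl
        have := perf_un hM (.c (a false)) h ((hA false _).2 rfl) (by simp [en]) (by simp [en])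
        simp at this
      · rintro rfl
        have := perf_un hM (.c (a true)) h ((hA true _).2 rfl) (by simp [en]) (by simp [en])
        simp at this
    · rintro ⟨h1, h2⟩
      obtain ⟨x, hx, hv⟩ := perf_ex hM (.c j)
      rcases mem_c hv with ⟨b, rfl⟩ | rfl
      · exfalso
        cases b
        · exact h1 ((hA false j).1 hx)
        · exact h2 ((hA true j).1 hx)
      · exact hx
  have hD1 : ∀ j, en (.D j) ∈ M → (j = a false ∨ j = a true) ∧
      (j + 1 = a false ∨ j + 1 = a true) := by
    intro j hj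
    constructor
    · by_contra hn
      push Not at hn
      have := perf_un hM (.w j) hj ((hC j).2 hn) (by simp [en]) (by simp [en])
      simp at this
    · by_contra hn
      push Not at hn
      have := perf_un hM (.w (j + 1)) hj ((hC _).2 hn) (by simp [en]) (by simp [en])
      simp at this
  obtain ⟨i, hi⟩ : ∃ i, en (.D i) ∈ M := by
    obtain ⟨x, hx, hv⟩ := perf_ex hM (.w (a false))
    rcases mem_w hv with rfl | rfl | ⟨i, hi, rfl⟩
    · exact absurd rfl ((hC _).1 hx).1
    · exact ⟨_, hx⟩
    · exact ⟨_, hx⟩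
  have hOri : Ori a i := by
    obtain ⟨h1, h2⟩ := hD1 i hi
    rcases h1 with h1 | h1 <;> rcases h2 with h2 | h2
    · exact absurd (h2.trans h1.symm) (succ_ne i)
    · left; exact ⟨h1.symm, h2.symm⟩
    · right; exact ⟨h2.symm, h1.symm⟩
    · exact absurd (h2.trans h1.symm) (succ_ne i)
  have hset : ∀ j, (j = a false ∨ j = a true) ↔ (j = i ∨ j = i + 1) := by
    intro j
    rcases hOri with ⟨h1, h2⟩ | ⟨h1, h2⟩
    · rw [h1, h2]
    · rw [h1, h2]; exact or_comm
  have hD : ∀ j, en (.D j) ∈ M ↔ j = i := by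
    intro j
    constructor
    · intro hj
      obtain ⟨h1, h2⟩ := hD1 j hj
      rcases (hset j).1 h1 with h3 | h3
      · exact h3
      · exfalso
        rcases (hset _).1 h2 with h4 | h4
        · rw [h3] at h4; exact succ2_ne i h4
        · rw [h3] at h4; exact succ_ne _ h4
    · rintro rfl; exact hi
  refine ⟨a, i, hOri, ?_⟩
  have key : ∀ z : Ed n, en z ∈ M ↔ InN a i z := by
    intro z
    cases z with
    | A b j => exact hA b j
    | C j =>
      rw [hC j]
      have := hset j
      simp only [InN]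
      tauto
    | D j => exact hD j
    | U b j => exact hU b j
    | T b j => exact hT b j
  ext x
  constructor
  · intro hx
    obtain ⟨z, rfl⟩ := (mem_Gr x).1 (hM.1.1 x hx)
    exact (mem_NN a i z).2 ((key z).1 hx)
  · intro hx
    obtain ⟨z, rfl, hz⟩ := exists_of_mem_NN hx
    exact (key z).2 hz

end Pool.Agent.KS6_2.MT
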