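import Pool.Agent.KS6_2.MT.Tm

/-! # Shape of the graph, and the toric ideals -/

namespace Pool.Agent.KS6_2.MT

set_option linter.unusedSimpArgs false

open Finset MvPolynomial

/-- The toric ideal of the sets of edges `M` with property `P`: the kernel of
`x_M ↦ (∏_{e ∈ M} t_e) s`. -/
noncomputable def toricIdeal (K : Type*) [Field K] {W : Type*} (P : Finset (Sym2 W) → Prop) :
    Ideal (MvPolynomial {M : Finset (Sym2 W) // P M} K) :=
  RingHom.ker (aeval (fun M : {M : Finset (Sym2 W) // P M} =>
    (∏ e ∈ M.1, X (some e)) * (X none : MvPolynomial (Option (Sym2 W)) K)) :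
      MvPolynomial {M : Finset (Sym2 W) // P M} K →ₐ[K] MvPolynomial (Option (Sym2 W)) K)

lemma toricIdeal_eq (K : Type*) [Field K] {W : Type*} (P : Finset (Sym2 W) → Prop) :
    toricIdeal K P = RingHom.ker (phi K (fun M : {M : Finset (Sym2 W) // P M} => wtM M.1)) := by
  unfold toricIdeal phi
  congr 2
  funext M
  unfold wtM
  have h1 : monomial (∑ e ∈ M.1, Finsupp.single (some e) 1 + Finsupp.single none 1) (1 : K) =
      monomial (∑ e ∈ M.1, Finsupp.single (some e) 1) (1 : K) *
        monomial (Finsupp.single none 1) (1 : K) := by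
    rw [monomial_mul, one_mul]
  rw [h1, monomial_sum_one]
  rfl

variable {n : ℕ}

lemma adj_en {x : Ed n} {u v : V n} (h : en x = s(u, v)) : (Gr n).Adj u v := by
  rw [← SimpleGraph.mem_edgeSet]
  exact (mem_Gr _).2 ⟨x, h⟩

lemma of_adj {u v : V n} (h : (Gr n).Adj u v) : ∃ x : Ed n, en x = s(u, v) := by
  rw [← SimpleGraph.mem_edgeSet] at h
  exact (mem_Gr _).1 h

lemma connected : (Gr n).Connected := by
  have hw : ∀ i : Fin (n + 3), (Gr n).Reachable (.w 0) (.w i) := by
    intro i
    induction i using Fin.induction with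
    | zero => exact SimpleGraph.Reachable.refl _
    | succ i ih =>
      refine ih.trans (SimpleGraph.Adj.reachable (adj_en (x := .D i.castSucc) ?_))
      simp only [en]
      rw [Fin.coeSucc_eq_succ]
  have hc : ∀ i : Fin (n + 3), (Gr n).Reachable (.w 0) (.c i) := fun i =>
    (hw i).trans (SimpleGraph.Adj.reachable (adj_en (x := .C i) rfl)).symm
  have he : ∀ b (i : Fin (n + 3)), (Gr n).Reachable (.w 0) (.e b i) := fun b i =>
    (hc i).trans (SimpleGraph.Adj.reachable (adj_en (x := .A b i) rfl))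
  have hy : ∀ b (j : Fin (n + 2)), (Gr n).Reachable (.w 0) (.y b j) := fun b j =>
    (he b j.castSucc).trans (SimpleGraph.Adj.reachable (adj_en (x := .U b j) rfl))
  have hall : ∀ v, (Gr n).Reachable (.w 0) v := by
    intro v
    cases v with
    | c i => exact hc i
    | w i => exact hw i
    | e b i => exact he b i
    | y b j => exact hy b j
  have : Nonempty (V n) := ⟨.w 0⟩
  exact ⟨fun u v => (hall u).symm.trans (hall v)⟩

lemma ncard_three {W : Type*} (s : Set W) (a b c : W) (h : s ⊆ {a, b, c}) : s.ncard ≤ 3 := by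
  classical
  have h1 : s ⊆ (({a, b, c} : Finset W) : Set W) := by
    intro x hx
    have := h hx
    simpa using this
  calc s.ncard ≤ (({a, b, c} : Finset W) : Set W).ncard :=
        Set.ncard_le_ncard h1 (Finset.finite_toSet _)
    _ = ({a, b, c} : Finset W).card := Set.ncard_coe_finset _
    _ ≤ 3 := Finset.card_le_three

lemma degree_le (v : V n) : ((Gr n).neighborSet v).ncard ≤ 3 := by
  cases v with
  | c i =>
    apply ncard_three _ (.e false i) (.e true i) (.w i)
    intro u hu
    obtain ⟨x, hx⟩ := of_adj hu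
    cases x <;> simp only [en, Sym2.eq_iff, reduceCtorEq, false_and, and_false, or_false, false_or,
      V.c.injEq, V.w.injEq, V.e.injEq] at hx
    · rename_i b j
      obtain ⟨rfl, rfl⟩ := hx
      cases b <;> simp
    · obtain ⟨rfl, rfl⟩ := hx
      simp
  | w i =>
    apply ncard_three _ (.c i) (.w (i + 1)) (.w (i - 1))
    intro u hu
    obtain ⟨x, hx⟩ := of_adj hu
    cases x <;> simp only [en, Sym2.eq_iff, reduceCtorEq, false_and, and_false, or_false, false_or,
      V.c.injEq, V.w.injEq, V.e.injEq] at hx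
    · obtain ⟨rfl, rfl⟩ := hx
      simp
    · rcases hx with ⟨rfl, rfl⟩ | ⟨rfl, rfl⟩
      · simp
      · simp
  | e b i =>
    apply ncard_three _ (.c i) (.y b (Fin.ofNat (n + 2) i.val))
      (.y b (Fin.ofNat (n + 2) (i.val - 1)))
    intro u hu
    obtain ⟨x, hx⟩ := of_adj hu
    cases x <;> simp only [en, Sym2.eq_iff, reduceCtorEq, false_and, and_false, or_false, false_or,
      V.c.injEq, V.w.injEq, V.e.injEq] at hx
    · obtain ⟨rfl, rfl, rfl⟩ := hx
      simp
    · obtain ⟨⟨rfl, rfl⟩, rfl⟩ := hx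
      rename_i j
      have : Fin.ofNat (n + 2) (j.castSucc : Fin (n + 3)).val = j := by
        apply Fin.ext
        simp only [Fin.val_ofNat, Fin.val_castSucc]
        exact Nat.mod_eq_of_lt j.2
      rw [this]
      simp
    · obtain ⟨rfl, rfl, rfl⟩ := hx
      rename_i j
      have : Fin.ofNat (n + 2) ((j.succ : Fin (n + 3)).val - 1) = j := by
        apply Fin.ext
        simp only [Fin.val_ofNat, Fin.val_succ, Nat.add_sub_cancel]
        exact Nat.mod_eq_of_lt j.2
      rw [this]
      simp
  | y b j =>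
    apply ncard_three _ (.e b j.castSucc) (.e b j.succ) (.e b j.succ)
    intro u hu
    obtain ⟨x, hx⟩ := of_adj hu
    cases x <;> simp only [en, Sym2.eq_iff, reduceCtorEq, false_and, and_false, or_false, false_or,
      V.c.injEq, V.w.injEq, V.e.injEq, V.y.injEq] at hx
    · obtain ⟨rfl, rfl, rfl⟩ := hx
      simp
    · obtain ⟨⟨rfl, rfl⟩, rfl⟩ := hx
      simp

/-- counting the vertices -/
def vEquiv (n : ℕ) : V n ≃ (Fin (n + 3) ⊕ Fin (n + 3)) ⊕
    ((Bool × Fin (n + 3)) ⊕ (Bool × Fin (n + 2))) where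
  toFun
    | .c i => Sum.inl (Sum.inl i)
    | .w i => Sum.inl (Sum.inr i)
    | .e b i => Sum.inr (Sum.inl (b, i))
    | .y b j => Sum.inr (Sum.inr (b, j))
  invFun
    | Sum.inl (Sum.inl i) => .c i
    | Sum.inl (Sum.inr i) => .w i
    | Sum.inr (Sum.inl (b, i)) => .e b i
    | Sum.inr (Sum.inr (b, j)) => .y b j
  left_inv v := by cases v <;> rfl
  right_inv v := by rcases v with (i | i) | ((⟨b, i⟩) | (⟨b, j⟩)) <;> rfl

lemma card_V : Fintype.card (V n) = 6 * (n + 3) - 2 := by
  rw [Fintype.card_congr (vEquiv n)]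
  simp only [Fintype.card_sum, Fintype.card_prod, Fintype.card_fin, Fintype.card_bool]
  omega

/-- **Degrees for the matching polytope.** -/
theorem deg_mat (K : Type*) [Field K] (S : Set (MvPolynomial {M // IsMat (Gr n) M} K))
    (hS : Ideal.span S = toricIdeal K (IsMat (Gr n))) : ∃ f ∈ S, n + 3 ≤ f.totalDegree := by
  have h2 : ∀ M, IsPerf (Gr n) M → IsMat (Gr n) M := fun M h => h.1
  have hsup : ∀ m : {M // IsMat (Gr n) M} →₀ ℕ, Wt (fun M => wtM M.1) m =
      Wt (fun M : {M // IsMat (Gr n) M} => wtM M.1) (mp h2) → Sup m := fun m hm s hs =>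
    fibre_perf (fun M h => h) m (mp h2) (mp_sup h2) hm s hs
  rw [toricIdeal_eq] at hS
  refine exists_degree (fun M : {M // IsMat (Gr n) M} => wtM M.1) _ (fun m => m = mp h2)
    (mp h2) (mm h2) rfl (Wt_mp_mm h2).symm rfl ?_ (n + 3) ?_ ?_ S hS
  · intro h
    have := DFunLike.congr_fun h (Np h2 0)
    rw [mp_Np, mm_Np] at this
    exact absurd this (by norm_num)
  · intro m hm
    rw [← Wt_none, hm, Wt_none, mp_degree]
  · intro m m' hm hm' h1 h3 s
    rcases fibre h2 (hsup m' hm') hm' with h4 | h4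
    · exact absurd h4 h3
    · rw [h1, h4]; exact mp_mm_dis h2 s

/-- **The toric ideal of the perfect matching polytope.** -/
theorem perf_principal (K : Type*) [Field K] : ∃ f : MvPolynomial {M // IsPerf (Gr n) M} K,
    f ≠ 0 ∧ f.IsHomogeneous (n + 3) ∧ toricIdeal K (IsPerf (Gr n)) = Ideal.span {f} := by
  classical
  have h2 : ∀ M, IsPerf (Gr n) M → IsPerf (Gr n) M := fun M h => h
  have hsup : ∀ m : {M // IsPerf (Gr n) M} →₀ ℕ, Sup m := fun m s _ => s.2
  have hne : mp h2 ≠ mm h2 := by
    intro h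
    have := DFunLike.congr_fun h (Np h2 0)
    rw [mp_Np, mm_Np] at this
    exact absurd this (by norm_num)
  refine ⟨monomial (mp h2) (1 : K) - monomial (mm h2) 1, ?_, ?_, ?_⟩
  · intro h
    have h1 := congrArg (coeff (mp h2)) h
    rw [coeff_sub, coeff_monomial, coeff_monomial, if_pos rfl, if_neg hne.symm, coeff_zero,
      sub_zero] at h1
    exact one_ne_zero h1
  · apply IsHomogeneous.sub
    · exact isHomogeneous_monomial _ (mp_degree h2)
    · exact isHomogeneous_monomial _ (mm_degree h2)
  · rw [toricIdeal_eq]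
    refine ker_eq_span _ _ _ (Wt_mp_mm h2) (mp_mm_dis h2) ?_ ?_
    · intro h
      have := DFunLike.congr_fun h (Np h2 0)
      rw [mp_Np] at this
      exact absurd this (by simp)
    · intro u v huv
      exact rank_one h2 (hsup u) (hsup v) huv

end Pool.Agent.KS6_2.MT
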