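import Pool.Agent.KS6_2.MT.Prin

/-! # A cubic-like graph with `2 k` perfect matchings and one relation -/

namespace Pool.Agent.KS6_2.MT

open Finset

/-- the vertices -/
inductive V (n : ℕ) where
  | c (i : Fin (n + 3)) : V n
  | w (i : Fin (n + 3)) : V n
  | e (b : Bool) (i : Fin (n + 3)) : V n
  | y (b : Bool) (j : Fin (n + 2)) : V n
  deriving DecidableEq, Fintype

/-- names of the edges -/
inductive Ed (n : ℕ) where
  | A (b : Bool) (i : Fin (n + 3)) : Ed n
  | C (i : Fin (n + 3)) : Ed n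
  | D (i : Fin (n + 3)) : Ed n
  | U (b : Bool) (j : Fin (n + 2)) : Ed n
  | T (b : Bool) (j : Fin (n + 2)) : Ed n
  deriving DecidableEq, Fintype

variable {n : ℕ}

lemma one_ne : (1 : Fin (n + 3)) ≠ 0 := by
  intro h
  have := congrArg Fin.val h
  simp at this

lemma two_ne : (1 + 1 : Fin (n + 3)) ≠ 0 := by
  intro h
  have h1 := congrArg Fin.val h
  have h2 : ((1 : Fin (n + 3)) : ℕ) = 1 := by
    rw [Fin.val_one]
  have h3 : ((0 : Fin (n + 3)) : ℕ) = 0 := rfl
  rw [Fin.val_add, h2, h3, Nat.mod_eq_of_lt (by omega)] at h1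
  omega

lemma succ_ne (i : Fin (n + 3)) : i + 1 ≠ i := fun h => one_ne (n := n) (add_eq_left.1 h)

lemma succ2_ne (i : Fin (n + 3)) : i + 1 + 1 ≠ i := by
  intro h
  rw [add_assoc] at h
  exact two_ne (add_eq_left.1 h)

/-- the edge with a given name -/
def en : Ed n → Sym2 (V n)
  | .A b i => s(.c i, .e b i)
  | .C i => s(.c i, .w i)
  | .D i => s(.w i, .w (i + 1))
  | .U b j => s(.e b j.castSucc, .y b j)
  | .T b j => s(.y b j, .e b j.succ)

lemma en_inj : Function.Injective (en (n := n)) := by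
  intro a b h
  cases a <;> cases b <;> simp only [en, Sym2.eq_iff, V.c.injEq, V.w.injEq, V.e.injEq, V.y.injEq,
    reduceCtorEq, false_and, and_false, or_false, false_or, Ed.A.injEq, Ed.C.injEq, Ed.D.injEq,
    Ed.U.injEq, Ed.T.injEq] at h ⊢
  · rcases h with ⟨rfl, rfl, -⟩; exact ⟨rfl, rfl⟩
  · exact h.1
  · rcases h with h | ⟨h1, h2⟩
    · exact h.1
    · subst h1
      exact absurd h2 (succ2_ne _)
  · exact h.2
  · obtain ⟨⟨-, h1⟩, -, h2⟩ := h
    subst h2
    have := congrArg Fin.val h1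
    simp at this
  · obtain ⟨⟨-, h1⟩, -, h2⟩ := h
    subst h1
    have := congrArg Fin.val h2
    simp at this
  · exact h.1

lemma en_not_diag (a : Ed n) : ¬ (en a).IsDiag := by
  cases a <;> simp only [en, Sym2.mk_isDiag_iff, V.w.injEq, reduceCtorEq, not_false_eq_true]
  exact fun h => succ_ne _ h.symm

/-- the graph -/
def Gr (n : ℕ) : SimpleGraph (V n) := SimpleGraph.fromEdgeSet (Set.range en)

lemma mem_Gr (x : Sym2 (V n)) : x ∈ (Gr n).edgeSet ↔ ∃ a, en a = x := by
  unfold Gr
  rw [SimpleGraph.edgeSet_fromEdgeSet, Set.mem_sdiff]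
  constructor
  · rintro ⟨⟨a, ha⟩, -⟩; exact ⟨a, ha⟩
  · rintro ⟨a, rfl⟩; exact ⟨⟨a, rfl⟩, en_not_diag a⟩

/-- names of the edges of a perfect matching -/
def InN (a : Bool → Fin (n + 3)) (i : Fin (n + 3)) : Ed n → Prop
  | .A b j => j = a b
  | .C j => j ≠ i ∧ j ≠ i + 1
  | .D j => j = i
  | .U b j => j.castSucc < a b
  | .T b j => a b ≤ j.castSucc

open Classical in
/-- the edges of a perfect matching -/
noncomputable def NN (a : Bool → Fin (n + 3)) (i : Fin (n + 3)) : Finset (Sym2 (V n)) :=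
  (univ.filter (InN a i)).image en

lemma mem_NN (a : Bool → Fin (n + 3)) (i : Fin (n + 3)) (x : Ed n) :
    en x ∈ NN a i ↔ InN a i x := by
  classical
  unfold NN
  rw [Finset.mem_image]
  constructor
  · rintro ⟨z, hz, hzx⟩
    rw [en_inj hzx] at hz
    exact (Finset.mem_filter.1 hz).2
  · intro h
    exact ⟨x, Finset.mem_filter.2 ⟨Finset.mem_univ _, h⟩, rfl⟩

lemma exists_of_mem_NN {a : Bool → Fin (n + 3)} {i : Fin (n + 3)} {x : Sym2 (V n)}
    (h : x ∈ NN a i) : ∃ z, en z = x ∧ InN a i z := by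
  classical
  unfold NN at h
  obtain ⟨z, hz, hzx⟩ := Finset.mem_image.1 h
  exact ⟨z, hzx, (Finset.mem_filter.1 hz).2⟩

/-- a matching -/
def IsMat {W : Type*} (G : SimpleGraph W) (M : Finset (Sym2 W)) : Prop :=
  (∀ x ∈ M, x ∈ G.edgeSet) ∧ ∀ x ∈ M, ∀ z ∈ M, x ≠ z → ∀ v : W, v ∈ x → v ∉ z

/-- a perfect matching -/
def IsPerf {W : Type*} (G : SimpleGraph W) (M : Finset (Sym2 W)) : Prop :=
  IsMat G M ∧ ∀ v, ∃ x ∈ M, v ∈ x

/-- the two orientations -/
def Ori (a : Bool → Fin (n + 3)) (i : Fin (n + 3)) : Prop :=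
  (a false = i ∧ a true = i + 1) ∨ (a false = i + 1 ∧ a true = i)

open Classical in
/-- the edge at a vertex -/
noncomputable def inc (a : Bool → Fin (n + 3)) (i : Fin (n + 3)) : V n → Ed n
  | .c j => if j = a false then .A false j else if j = a true then .A true j else .C j
  | .w j => if j = i then .D i else if j = i + 1 then .D i else .C j
  | .e b j => if h : j < a b then .U b (j.castLT (by
      have := (a b).isLt; have h' : (j : ℕ) < a b := h; omega)) else
      if h : j = a b then .A b j else .T b (j.pred (by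
        intro h0; subst h0
        exact h (le_antisymm (Fin.zero_le _) (not_lt.1 ‹_›))))
  | .y b j => if j.castSucc < a b then .U b j else .T b j

lemma inc_unique {a : Bool → Fin (n + 3)} {i : Fin (n + 3)} (ho : Ori a i) (v : V n) (x : Ed n)
    (hx : InN a i x) (hv : v ∈ en x) : x = inc a i v := by
  have hab : a false ≠ a true := by
    rcases ho with ⟨h1, h2⟩ | ⟨h1, h2⟩
    · rw [h1, h2]; exact (succ_ne i).symm
    · rw [h1, h2]; exact succ_ne i
  cases x with
  | A b j =>
    simp only [InN] at hx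
    subst hx
    simp only [en, Sym2.mem_iff] at hv
    rcases hv with rfl | rfl
    · cases b
      · simp [inc]
      · simp [inc, hab.symm]
    · simp [inc]
  | C j =>
    simp only [InN] at hx
    simp only [en, Sym2.mem_iff] at hv
    rcases hv with rfl | rfl
    · have h1 : j ≠ a false := by
        rcases ho with ⟨h1, h2⟩ | ⟨h1, h2⟩
        · rw [h1]; exact hx.1
        · rw [h1]; exact hx.2
      have h2 : j ≠ a true := by
        rcases ho with ⟨h1, h2⟩ | ⟨h1, h2⟩
        · rw [h2]; exact hx.2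
        · rw [h2]; exact hx.1
      simp [inc, h1, h2]
    · simp [inc, hx.1, hx.2]
  | D j =>
    simp only [InN] at hx
    subst hx
    simp only [en, Sym2.mem_iff] at hv
    rcases hv with rfl | rfl
    · simp [inc]
    · simp [inc]
  | U b j =>
    simp only [InN] at hx
    simp only [en, Sym2.mem_iff] at hv
    rcases hv with rfl | rfl
    · simp [inc, hx]
    · simp [inc, hx]
  | T b j =>
    simp only [InN] at hx
    simp only [en, Sym2.mem_iff] at hv
    rcases hv with rfl | rfl
    · simp [inc, not_lt.2 hx]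
    · have h1 : a b < j.succ := lt_of_le_of_lt hx Fin.castSucc_lt_succ
      simp [inc, not_lt.2 h1.le, h1.ne']

lemma inc_mem {a : Bool → Fin (n + 3)} {i : Fin (n + 3)} (ho : Ori a i) (v : V n) :
    InN a i (inc a i v) ∧ v ∈ en (inc a i v) := by
  cases v with
  | c j =>
    by_cases h1 : j = a false
    · simp [inc, h1, InN, en]
    · by_cases h2 : j = a true
      · subst h2; simp [inc, h1, InN, en]
      · have : j ≠ i ∧ j ≠ i + 1 := by
          rcases ho with ⟨h3, h4⟩ | ⟨h3, h4⟩
          · exact ⟨h3 ▸ h1, h4 ▸ h2⟩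
          · exact ⟨h4 ▸ h2, h3 ▸ h1⟩
        simp [inc, h1, h2, InN, en, this]
  | w j =>
    by_cases h1 : j = i
    · simp [inc, h1, InN, en]
    · by_cases h2 : j = i + 1
      · subst h2; simp [inc, InN, en]
      · simp [inc, h1, h2, InN, en]
  | e b j =>
    by_cases h1 : j < a b
    · simp [inc, h1, InN, en]
    · by_cases h2 : j = a b
      · simp [inc, h2, InN, en]
      · have h3 : a b < j := lt_of_le_of_ne (not_lt.1 h1) (Ne.symm h2)
        simp only [inc, dif_neg h1, dif_neg h2, InN, en, Sym2.mem_iff, Fin.succ_pred, or_true,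
          and_true]
        rw [Fin.le_def, Fin.val_castSucc, Fin.val_pred]
        have : (a b : ℕ) < j := h3
        omega
  | y b j =>
    by_cases h1 : j.castSucc < a b
    · simp [inc, h1, InN, en]
    · simp [inc, h1, InN, en, not_lt.1 h1]

lemma NN_perf {a : Bool → Fin (n + 3)} {i : Fin (n + 3)} (ho : Ori a i) :
    IsPerf (Gr n) (NN a i) := by
  refine ⟨⟨?_, ?_⟩, ?_⟩
  · intro x hx
    obtain ⟨z, hz, -⟩ := exists_of_mem_NN hx
    exact (mem_Gr x).2 ⟨z, hz⟩
  · intro x hx z hz hne v hv hv'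
    obtain ⟨x', rfl, hx'⟩ := exists_of_mem_NN hx
    obtain ⟨z', rfl, hz'⟩ := exists_of_mem_NN hz
    rw [inc_unique ho v x' hx' hv, inc_unique ho v z' hz' hv'] at hne
    exact hne rfl
  · intro v
    exact ⟨en (inc a i v), (mem_NN a i _).2 (inc_mem ho v).1, (inc_mem ho v).2⟩

end Pool.Agent.KS6_2.MT
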