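import Pool.Agent.KS6_2.MT.Tor

/-! # Principal toric ideals -/

namespace Pool.Agent.KS6_2.MT

open Finset MvPolynomial

variable {σ τ : Type*} {K : Type*} [Field K]

/-- A toric ideal whose lattice has rank one is principal. -/
theorem ker_eq_span (wt : σ → τ →₀ ℕ) (m1 m2 : σ →₀ ℕ) (h12 : Wt wt m1 = Wt wt m2)
    (hdis : ∀ s, m1 s = 0 ∨ m2 s = 0) (hne : m1 ≠ 0)
    (H : ∀ u v : σ →₀ ℕ, Wt wt u = Wt wt v →
      ∃ t : ℕ, u + t • m2 = v + t • m1 ∨ v + t • m2 = u + t • m1) :
    RingHom.ker (phi K wt) = Ideal.span {monomial m1 (1 : K) - monomial m2 1} := by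
  classical
  set f : MvPolynomial σ K := monomial m1 (1 : K) - monomial m2 1 with hf
  have hfker : phi K wt f = 0 := by
    rw [hf, map_sub, phi_monomial, phi_monomial, h12, sub_self]
  obtain ⟨s0, hs0⟩ : ∃ s, m1 s ≠ 0 := by
    by_contra hall
    push Not at hall
    exact hne (Finsupp.ext hall)
  have hs2 : m2 s0 = 0 := (hdis s0).resolve_left hs0
  -- normal forms
  have nf : ∀ N : ℕ, ∀ u : σ →₀ ℕ, u s0 ≤ N → ∃ v : σ →₀ ℕ, ¬ m1 ≤ v ∧ Wt wt v = Wt wt u ∧
      monomial u (1 : K) - monomial v 1 ∈ Ideal.span {f} := by
    intro N
    induction N with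
    | zero =>
      intro u hu
      refine ⟨u, ?_, rfl, by rw [sub_self]; exact Ideal.zero_mem _⟩
      intro hle
      have := hle s0
      omega
    | succ N ih =>
      intro u hu
      by_cases hle : m1 ≤ u
      · have hu' : (u - m1 + m2) s0 ≤ N := by
          rw [Finsupp.add_apply, hs2, Finsupp.tsub_apply]
          have := hle s0
          omega
        obtain ⟨v, hv1, hv2, hv3⟩ := ih _ hu'
        refine ⟨v, hv1, ?_, ?_⟩
        · rw [hv2, Wt_add, ← h12, ← Wt_add, tsub_add_cancel_of_le hle]
        · have e : monomial u (1 : K) - monomial v 1 =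
              monomial (u - m1) 1 * f + (monomial (u - m1 + m2) 1 - monomial v 1) := by
            rw [hf, mul_sub, monomial_mul, monomial_mul, one_mul, tsub_add_cancel_of_le hle]
            ring
          rw [e]
          exact Ideal.add_mem _ (Ideal.mul_mem_left _ _ (Ideal.subset_span rfl)) hv3
      · exact ⟨u, hle, rfl, by rw [sub_self]; exact Ideal.zero_mem _⟩
  choose! NF hN1 hN2 hN3 using fun u => nf (u s0) u le_rfl
  apply le_antisymm
  · intro g hg
    rw [RingHom.mem_ker] at hg
    set g' : MvPolynomial σ K := ∑ u ∈ g.support, monomial (NF u) (coeff u g) with hg'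
    have hdiff : g - g' ∈ Ideal.span {f} := by
      have e : g - g' = ∑ u ∈ g.support, C (coeff u g) * (monomial u 1 - monomial (NF u) 1) := by
        conv_lhs => rw [← support_sum_monomial_coeff g]
        rw [hg', ← Finset.sum_sub_distrib]
        refine Finset.sum_congr rfl fun u _ => ?_
        rw [mul_sub, C_mul_monomial, C_mul_monomial, mul_one]
      rw [e]
      exact Ideal.sum_mem _ fun u _ => Ideal.mul_mem_left _ _ (hN3 u)
    have hg'0 : phi K wt g' = 0 := by
      have h1 : phi K wt (g - g') = 0 := by
        obtain ⟨q, hq⟩ := Ideal.mem_span_singleton'.1 hdiff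
        rw [← hq, map_mul, hfker, mul_zero]
      rw [map_sub] at h1
      have hg2 : phi K wt g = 0 := hg
      rw [hg2, zero_sub, neg_eq_zero] at h1
      exact h1
    have hsupp : ∀ b ∈ g'.support, ¬ m1 ≤ b := by
      intro b hb
      have : b ∈ g.support.biUnion fun u => (monomial (NF u) (coeff u g)).support :=
        support_sum hb
      rw [Finset.mem_biUnion] at this
      obtain ⟨u, _, hu⟩ := this
      have := support_monomial_subset hu
      rw [Finset.mem_singleton] at this
      rw [this]; exact hN1 u
    have hg'' : g' = 0 := by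
      by_contra hne'
      obtain ⟨b, hb⟩ := support_nonempty.2 hne'
      have h1 := coeff_phi wt g' (Wt wt b)
      rw [hg'0, coeff_zero, Finset.sum_eq_single b, if_pos rfl] at h1
      · exact (mem_support_iff.1 hb) h1.symm
      · intro b' hb' hbb
        rw [if_neg]
        intro hw
        obtain ⟨t, ht | ht⟩ := H b' b hw
        · rcases Nat.eq_zero_or_pos t with h0 | h0
          · rw [h0, zero_smul, zero_smul, add_zero, add_zero] at ht
            exact hbb ht
          · apply hsupp b' hb'
            intro s
            have h3 := DFunLike.congr_fun ht s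
            simp only [Finsupp.add_apply, Finsupp.smul_apply, smul_eq_mul] at h3
            rcases hdis s with h4 | h4
            · rw [h4]; exact Nat.zero_le _
            · rw [h4, mul_zero, add_zero] at h3
              rw [h3]
              have : m1 s ≤ t * m1 s := Nat.le_mul_of_pos_left _ h0
              omega
        · rcases Nat.eq_zero_or_pos t with h0 | h0
          · rw [h0, zero_smul, zero_smul, add_zero, add_zero] at ht
            exact hbb ht.symm
          · apply hsupp b hb
            intro s
            have h3 := DFunLike.congr_fun ht s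
            simp only [Finsupp.add_apply, Finsupp.smul_apply, smul_eq_mul] at h3
            rcases hdis s with h4 | h4
            · rw [h4]; exact Nat.zero_le _
            · rw [h4, mul_zero, add_zero] at h3
              rw [h3]
              have : m1 s ≤ t * m1 s := Nat.le_mul_of_pos_left _ h0
              omega
      · intro hb'
        exact absurd hb hb'
    rw [hg'', sub_zero] at hdiff
    exact hdiff
  · rw [Ideal.span_le]
    rintro _ rfl
    exact (RingHom.mem_ker).2 hfker

end Pool.Agent.KS6_2.MT
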