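import Pool.Agent.KS6_2.MT.Cl

/-! # The fibre of the sum of the perfect matchings of one type -/

namespace Pool.Agent.KS6_2.MT

open Finset MvPolynomial

/-- the weight of a set of edges -/
noncomputable def wtM {W : Type*} (M : Finset (Sym2 W)) : Option (Sym2 W) →₀ ℕ :=
  ∑ e ∈ M, Finsupp.single (some e) 1 + Finsupp.single none 1

/-- indicator -/
noncomputable def ind (p : Prop) : ℕ := @ite ℕ p (Classical.propDecidable p) 1 0

lemma ind_pos {p : Prop} (h : p) : ind p = 1 := by unfold ind; rw [if_pos h]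
lemma ind_neg {p : Prop} (h : ¬ p) : ind p = 0 := by unfold ind; rw [if_neg h]

lemma wtM_some {W : Type*} (M : Finset (Sym2 W)) (e : Sym2 W) :
    wtM M (some e) = ind (e ∈ M) := by
  classical
  unfold wtM
  rw [Finsupp.add_apply, Finsupp.finsetSum_apply]
  by_cases h : e ∈ M
  · rw [ind_pos h]
    simp [Finsupp.single_apply, h]
  · rw [ind_neg h]
    simp [Finsupp.single_apply, h]

lemma wtM_none {W : Type*} (M : Finset (Sym2 W)) : wtM M none = 1 := by
  unfold wtM
  rw [Finsupp.add_apply, Finsupp.finsetSum_apply]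
  simp

lemma Wt_apply {σ τ : Type*} (wt : σ → τ →₀ ℕ) (m : σ →₀ ℕ) (t : τ) :
    Wt wt m t = ∑ s ∈ m.support, m s * wt s t := by
  unfold Wt Finsupp.sum
  rw [Finsupp.finsetSum_apply]
  rfl

variable {W : Type*} {P : Finset (Sym2 W) → Prop}

lemma Wt_none (m : {M // P M} →₀ ℕ) : Wt (fun M : {M // P M} => wtM M.1) m none = m.degree := by
  rw [Wt_apply, Finsupp.degree_apply]
  refine Finset.sum_congr rfl fun s _ => ?_
  rw [wtM_none, mul_one]

open Classical in
lemma card_at {G : SimpleGraph W} {M : Finset (Sym2 W)} (hM : IsMat G M) (v : W) :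
    (M.filter fun e => v ∈ e).card ≤ 1 := by
  rw [Finset.card_le_one]
  intro a ha b hb
  rw [Finset.mem_filter] at ha hb
  by_contra hne
  exact hM.2 a ha.1 b hb.1 hne v ha.2 hb.2

/-- all the matchings of a fibre of a sum of perfect matchings are perfect -/
lemma fibre_perf [Fintype W] {G : SimpleGraph W} (hP : ∀ M, P M → IsMat G M)
    (m m' : {M // P M} →₀ ℕ) (hm' : ∀ s, m' s ≠ 0 → IsPerf G s.1)
    (hW : Wt (fun M : {M // P M} => wtM M.1) m = Wt (fun M : {M // P M} => wtM M.1) m')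
    (s : {M // P M}) (hs : m s ≠ 0) : IsPerf G s.1 := by
  classical
  refine ⟨hP _ s.2, fun v => ?_⟩
  have h1 : ∀ m : {M // P M} →₀ ℕ, ∑ e ∈ univ.filter (fun e : Sym2 W => v ∈ e),
      Wt (fun M : {M // P M} => wtM M.1) m (some e) =
      ∑ s ∈ m.support, m s * (s.1.filter fun e => v ∈ e).card := by
    intro m
    have : ∀ e ∈ univ.filter (fun e : Sym2 W => v ∈ e),
        Wt (fun M : {M // P M} => wtM M.1) m (some e) =
        ∑ s ∈ m.support, m s * ind (e ∈ s.1) := by
      intro e _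
      rw [Wt_apply]
      refine Finset.sum_congr rfl fun s _ => ?_
      rw [wtM_some]
    rw [Finset.sum_congr rfl this, Finset.sum_comm]
    refine Finset.sum_congr rfl fun s _ => ?_
    rw [← Finset.mul_sum]
    congr 1
    have h3 : ∀ e ∈ univ.filter (fun e : Sym2 W => v ∈ e), ind (e ∈ s.1) =
        if e ∈ s.1 then 1 else 0 := by
      intro e _
      by_cases h : e ∈ s.1
      · rw [ind_pos h, if_pos h]
      · rw [ind_neg h, if_neg h]
    rw [Finset.sum_congr rfl h3, ← Finset.sum_filter, Finset.sum_const, smul_eq_mul, mul_one,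
      Finset.filter_filter]
    congr 1
    ext e
    simp only [Finset.mem_filter, Finset.mem_univ, true_and]
    exact and_comm
  have h2 : ∑ s ∈ m'.support, m' s * (s.1.filter fun e => v ∈ e).card = m'.degree := by
    rw [Finsupp.degree_apply]
    refine Finset.sum_congr rfl fun s hs => ?_
    have h3 := hm' s (Finsupp.mem_support_iff.1 hs)
    have h4 : (s.1.filter fun e => v ∈ e).card = 1 := by
      apply le_antisymm (card_at h3.1 v)
      obtain ⟨x, hx, hv⟩ := h3.2 v
      exact Finset.card_pos.2 ⟨x, Finset.mem_filter.2 ⟨hx, hv⟩⟩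
    rw [h4, mul_one]
  have h5 : ∑ s ∈ m.support, m s * (s.1.filter fun e => v ∈ e).card = ∑ s ∈ m.support, m s := by
    rw [← h1 m, hW, h1 m', h2, ← Wt_none, ← hW, Wt_none, Finsupp.degree_apply]
  have h6 : ∀ s ∈ m.support, m s * (s.1.filter fun e => v ∈ e).card ≤ m s := by
    intro s _
    calc m s * (s.1.filter fun e => v ∈ e).card ≤ m s * 1 :=
          Nat.mul_le_mul_left _ (card_at (hP _ s.2) v)
      _ = m s := mul_one _
  have h7 := (Finset.sum_eq_sum_iff_of_le h6).1 h5 s (Finsupp.mem_support_iff.2 hs)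
  have h8 : (s.1.filter fun e => v ∈ e).card ≠ 0 := by
    intro h0
    rw [h0, mul_zero] at h7
    exact hs h7.symm
  obtain ⟨x, hx⟩ := Finset.card_pos.1 (Nat.pos_of_ne_zero h8)
  rw [Finset.mem_filter] at hx
  exact ⟨x, hx.1, hx.2⟩

variable {n : ℕ}

/-- first orientation -/
def ap (i : Fin (n + 3)) (b : Bool) : Fin (n + 3) := if b then i + 1 else i

/-- second orientation -/
def am (i : Fin (n + 3)) (b : Bool) : Fin (n + 3) := if b then i else i + 1

lemma ori_ap (i : Fin (n + 3)) : Ori (ap i) i := Or.inl ⟨rfl, rfl⟩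
lemma ori_am (i : Fin (n + 3)) : Ori (am i) i := Or.inr ⟨rfl, rfl⟩

lemma classify' {M : Finset (Sym2 (V n))} (hM : IsPerf (Gr n) M) :
    ∃ i, M = NN (ap i) i ∨ M = NN (am i) i := by
  obtain ⟨a, i, ho, rfl⟩ := classify hM
  refine ⟨i, ?_⟩
  rcases ho with ⟨h1, h2⟩ | ⟨h1, h2⟩
  · left; congr 1; funext b; cases b
    · exact h1
    · exact h2
  · right; congr 1; funext b; cases b
    · exact h1
    · exact h2

section
variable {P : Finset (Sym2 (V n)) → Prop} (h2 : ∀ M, IsPerf (Gr n) M → P M)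

/-- the matching `N_i^+` -/
noncomputable def Np (i : Fin (n + 3)) : {M // P M} := ⟨NN (ap i) i, h2 _ (NN_perf (ori_ap i))⟩

/-- the matching `N_i^-` -/
noncomputable def Nm (i : Fin (n + 3)) : {M // P M} := ⟨NN (am i) i, h2 _ (NN_perf (ori_am i))⟩

lemma Np_val (i : Fin (n + 3)) : (Np h2 i).1 = NN (ap i) i := rfl
lemma Nm_val (i : Fin (n + 3)) : (Nm h2 i).1 = NN (am i) i := rfl

lemma D_mem_p (i j : Fin (n + 3)) : en (.D j) ∈ NN (ap i) i ↔ j = i := mem_NN _ _ _
lemma D_mem_m (i j : Fin (n + 3)) : en (.D j) ∈ NN (am i) i ↔ j = i := mem_NN _ _ _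
lemma A_mem_p (i j : Fin (n + 3)) : en (.A true j) ∈ NN (ap i) i ↔ j = i + 1 := mem_NN _ _ _
lemma A_mem_m (i j : Fin (n + 3)) : en (.A true j) ∈ NN (am i) i ↔ j = i := mem_NN _ _ _

lemma Np_inj : Function.Injective (Np h2) := by
  intro i j h
  have := congrArg Subtype.val h
  have h1 : en (.D i) ∈ NN (ap j) j := by
    change NN (ap i) i = NN (ap j) j at this
    rw [← this]; exact (D_mem_p i i).2 rfl
  exact (D_mem_p j i).1 h1

lemma Nm_inj : Function.Injective (Nm h2) := by
  intro i j h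
  have := congrArg Subtype.val h
  have h1 : en (.D i) ∈ NN (am j) j := by
    change NN (am i) i = NN (am j) j at this
    rw [← this]; exact (D_mem_m i i).2 rfl
  exact (D_mem_m j i).1 h1

lemma Np_ne_Nm (i j : Fin (n + 3)) : Np h2 i ≠ Nm h2 j := by
  intro h
  have := congrArg Subtype.val h
  change NN (ap i) i = NN (am j) j at this
  have h1 : en (.D i) ∈ NN (am j) j := by
    rw [← this]; exact (D_mem_p i i).2 rfl
  have h3 := (D_mem_m j i).1 h1
  subst h3
  have h4 : en (.A true (i + 1)) ∈ NN (am i) i := by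
    rw [← this]; exact (A_mem_p i (i + 1)).2 rfl
  exact succ_ne i ((A_mem_m i _).1 h4)

/-- a vector supported on perfect matchings -/
def Sup (m : {M // P M} →₀ ℕ) : Prop := ∀ s, m s ≠ 0 → IsPerf (Gr n) s.1

lemma sup_cases {m : {M // P M} →₀ ℕ} (hm : Sup m) (s : {M // P M}) (hs : m s ≠ 0) :
    ∃ i, s = Np h2 i ∨ s = Nm h2 i := by
  obtain ⟨i, hi | hi⟩ := classify' (hm s hs)
  · exact ⟨i, Or.inl (Subtype.ext hi)⟩
  · exact ⟨i, Or.inr (Subtype.ext hi)⟩

open Classical in
lemma sum_sup {m : {M // P M} →₀ ℕ} (hm : Sup m) (f : {M // P M} → ℕ) :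
    ∑ s ∈ m.support, m s * f s = ∑ i, m (Np h2 i) * f (Np h2 i) + ∑ i, m (Nm h2 i) * f (Nm h2 i) := by
  have hsub : m.support ⊆ (univ.image (Np h2)) ∪ (univ.image (Nm h2)) := by
    intro s hs
    obtain ⟨i, rfl | rfl⟩ := sup_cases h2 hm s (Finsupp.mem_support_iff.1 hs)
    · exact Finset.mem_union_left _ (Finset.mem_image_of_mem _ (Finset.mem_univ _))
    · exact Finset.mem_union_right _ (Finset.mem_image_of_mem _ (Finset.mem_univ _))
  rw [Finset.sum_subset hsub, Finset.sum_union, Finset.sum_image (fun _ _ _ _ h => Np_inj h2 h),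
    Finset.sum_image (fun _ _ _ _ h => Nm_inj h2 h)]
  · rw [Finset.disjoint_left]
    intro s hs hs'
    obtain ⟨i, _, rfl⟩ := Finset.mem_image.1 hs
    obtain ⟨j, _, hj⟩ := Finset.mem_image.1 hs'
    exact Np_ne_Nm h2 i j hj.symm
  · intro s _ hs
    rw [Finsupp.notMem_support_iff.1 hs, zero_mul]

lemma Wt_D {m : {M // P M} →₀ ℕ} (hm : Sup m) (j : Fin (n + 3)) :
    Wt (fun M : {M // P M} => wtM M.1) m (some (en (.D j))) = m (Np h2 j) + m (Nm h2 j) := by
  classical
  rw [Wt_apply, sum_sup h2 hm]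
  congr 1
  · rw [Finset.sum_eq_single j]
    · rw [wtM_some, Np_val, ind_pos ((D_mem_p j j).2 rfl), mul_one]
    · intro i _ hi
      rw [wtM_some, Np_val, ind_neg (fun h => hi ((D_mem_p i j).1 h).symm), mul_zero]
    · intro h; exact absurd (Finset.mem_univ _) h
  · rw [Finset.sum_eq_single j]
    · rw [wtM_some, Nm_val, ind_pos ((D_mem_m j j).2 rfl), mul_one]
    · intro i _ hi
      rw [wtM_some, Nm_val, ind_neg (fun h => hi ((D_mem_m i j).1 h).symm), mul_zero]
    · intro h; exact absurd (Finset.mem_univ _) h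

lemma Wt_A {m : {M // P M} →₀ ℕ} (hm : Sup m) (j : Fin (n + 3)) :
    Wt (fun M : {M // P M} => wtM M.1) m (some (en (.A true (j + 1)))) =
      m (Np h2 j) + m (Nm h2 (j + 1)) := by
  classical
  rw [Wt_apply, sum_sup h2 hm]
  congr 1
  · rw [Finset.sum_eq_single j]
    · rw [wtM_some, Np_val, ind_pos ((A_mem_p j _).2 rfl), mul_one]
    · intro i _ hi
      rw [wtM_some, Np_val, ind_neg (fun h => hi (add_right_cancel ((A_mem_p i _).1 h)).symm), mul_zero]
    · intro h; exact absurd (Finset.mem_univ _) h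
  · rw [Finset.sum_eq_single (j + 1)]
    · rw [wtM_some, Nm_val, ind_pos ((A_mem_m _ _).2 rfl), mul_one]
    · intro i _ hi
      rw [wtM_some, Nm_val, ind_neg (fun h => hi ((A_mem_m i _).1 h).symm), mul_zero]
    · intro h; exact absurd (Finset.mem_univ _) h

/-- the sum of the `N_i^+` -/
noncomputable def mp : {M // P M} →₀ ℕ := ∑ i, Finsupp.single (Np h2 i) 1

/-- the sum of the `N_i^-` -/
noncomputable def mm : {M // P M} →₀ ℕ := ∑ i, Finsupp.single (Nm h2 i) 1

lemma mp_Np (i : Fin (n + 3)) : mp h2 (Np h2 i) = 1 := by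
  classical
  unfold mp
  rw [Finsupp.finsetSum_apply, Finset.sum_eq_single i]
  · simp
  · intro j _ hj
    rw [Finsupp.single_apply, if_neg (fun h => hj (Np_inj h2 h))]
  · intro h; exact absurd (Finset.mem_univ _) h

lemma mp_Nm (i : Fin (n + 3)) : mp h2 (Nm h2 i) = 0 := by
  classical
  unfold mp
  rw [Finsupp.finsetSum_apply]
  refine Finset.sum_eq_zero fun j _ => ?_
  rw [Finsupp.single_apply, if_neg (Np_ne_Nm h2 j i)]

lemma mm_Nm (i : Fin (n + 3)) : mm h2 (Nm h2 i) = 1 := by
  classical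
  unfold mm
  rw [Finsupp.finsetSum_apply, Finset.sum_eq_single i]
  · simp
  · intro j _ hj
    rw [Finsupp.single_apply, if_neg (fun h => hj (Nm_inj h2 h))]
  · intro h; exact absurd (Finset.mem_univ _) h

lemma mm_Np (i : Fin (n + 3)) : mm h2 (Np h2 i) = 0 := by
  classical
  unfold mm
  rw [Finsupp.finsetSum_apply]
  refine Finset.sum_eq_zero fun j _ => ?_
  rw [Finsupp.single_apply, if_neg (fun h => Np_ne_Nm h2 i j h.symm)]

lemma mp_sup : Sup (mp h2) := by
  classical
  intro s hs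
  unfold mp at hs
  rw [Finsupp.finsetSum_apply] at hs
  obtain ⟨i, _, hi⟩ := Finset.exists_ne_zero_of_sum_ne_zero hs
  rw [Finsupp.single_apply] at hi
  split_ifs at hi with h
  · rw [← h]; exact NN_perf (ori_ap i)
  · exact absurd rfl hi

lemma mm_sup : Sup (mm h2) := by
  classical
  intro s hs
  unfold mm at hs
  rw [Finsupp.finsetSum_apply] at hs
  obtain ⟨i, _, hi⟩ := Finset.exists_ne_zero_of_sum_ne_zero hs
  rw [Finsupp.single_apply] at hi
  split_ifs at hi with h
  · rw [← h]; exact NN_perf (ori_am i)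
  · exact absurd rfl hi

lemma mp_degree : (mp h2).degree = n + 3 := by
  unfold mp
  rw [map_sum]
  simp

lemma mm_degree : (mm h2).degree = n + 3 := by
  unfold mm
  rw [map_sum]
  simp

lemma Wt_mp_mm : Wt (fun M : {M // P M} => wtM M.1) (mp h2) =
    Wt (fun M : {M // P M} => wtM M.1) (mm h2) := by
  classical
  ext t
  cases t with
  | none => rw [Wt_none, Wt_none, mp_degree, mm_degree]
  | some e =>
    rw [Wt_apply, Wt_apply, sum_sup h2 (mp_sup h2), sum_sup h2 (mm_sup h2)]
    simp only [mp_Np, mp_Nm, mm_Np, mm_Nm, one_mul, zero_mul, Finset.sum_const_zero, add_zero,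
      zero_add, wtM_some, Np_val, Nm_val]
    have key : ∀ F : Fin (n + 3) → Prop, ∑ i, ind (F i) = ∑ i, ind (F (i + 1)) := fun F =>
      (Equiv.sum_comp (Equiv.addRight (1 : Fin (n + 3))) (fun i => ind (F i))).symm
    by_cases he : ∃ z : Ed n, en z = e
    · obtain ⟨z, rfl⟩ := he
      simp only [mem_NN]
      cases z with
      | A b j =>
        cases b
        · exact key (fun i => j = i)
        · exact (key (fun i => j = i)).symm
      | C j => rfl
      | D j => rfl
      | U b j =>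
        cases b
        · exact key (fun i => j.castSucc < i)
        · exact (key (fun i => j.castSucc < i)).symm
      | T b j =>
        cases b
        · exact key (fun i => i ≤ j.castSucc)
        · exact (key (fun i => i ≤ j.castSucc)).symm
    · have h : ∀ (a : Bool → Fin (n + 3)) (i : Fin (n + 3)), e ∉ NN a i := by
        intro a i hmem
        obtain ⟨z, hz, _⟩ := exists_of_mem_NN hmem
        exact he ⟨z, hz⟩
      refine Finset.sum_congr rfl fun i _ => ?_
      rw [ind_neg (h _ _), ind_neg (h _ _)]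

/-- **The lattice has rank one.** -/
lemma rank_one {u v : {M // P M} →₀ ℕ} (hu : Sup u) (hv : Sup v)
    (hW : Wt (fun M : {M // P M} => wtM M.1) u = Wt (fun M : {M // P M} => wtM M.1) v) :
    ∃ t : ℕ, u + t • mm h2 = v + t • mp h2 ∨ v + t • mm h2 = u + t • mp h2 := by
  have e1 : ∀ j, u (Np h2 j) + u (Nm h2 j) = v (Np h2 j) + v (Nm h2 j) := by
    intro j; rw [← Wt_D h2 hu, ← Wt_D h2 hv, hW]
  have e2 : ∀ j, u (Np h2 j) + u (Nm h2 (j + 1)) = v (Np h2 j) + v (Nm h2 (j + 1)) := by
    intro j; rw [← Wt_A h2 hu, ← Wt_A h2 hv, hW]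
  have e3 : ∀ j : Fin (n + 3), (u (Nm h2 j) : ℤ) - v (Nm h2 j) = u (Nm h2 0) - v (Nm h2 0) := by
    intro j
    induction j using Fin.induction with
    | zero => rfl
    | succ j ih =>
      have h3 := e1 j.castSucc
      have h4 := e2 j.castSucc
      rw [Fin.coeSucc_eq_succ] at h4
      omega
  have e4 : ∀ j : Fin (n + 3), (v (Np h2 j) : ℤ) - u (Np h2 j) = u (Nm h2 0) - v (Nm h2 0) := by
    intro j
    have h3 := e1 j
    have h4 := e3 j
    omega
  have ext_sup : ∀ f g : {M // P M} →₀ ℕ, Sup f → Sup g → (∀ j, f (Np h2 j) = g (Np h2 j)) →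
      (∀ j, f (Nm h2 j) = g (Nm h2 j)) → f = g := by
    intro f g hf hg h3 h4
    ext s
    by_cases hfs : f s = 0
    · by_cases hgs : g s = 0
      · rw [hfs, hgs]
      · obtain ⟨i, rfl | rfl⟩ := sup_cases h2 hg s hgs
        · exact h3 i
        · exact h4 i
    · obtain ⟨i, rfl | rfl⟩ := sup_cases h2 hf s hfs
      · exact h3 i
      · exact h4 i
  have sup_add : ∀ (f g : {M // P M} →₀ ℕ) (t : ℕ), Sup f → Sup g → Sup (f + t • g) := by
    intro f g t hf hg s hs
    by_cases h3 : f s = 0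
    · by_cases h4 : g s = 0
      · exfalso; apply hs; simp [h3, h4]
      · exact hg s h4
    · exact hf s h3
  rcases le_total (v (Nm h2 0)) (u (Nm h2 0)) with h | h
  · refine ⟨u (Nm h2 0) - v (Nm h2 0), Or.inr ?_⟩
    apply ext_sup _ _ (sup_add _ _ _ hv (mm_sup h2)) (sup_add _ _ _ hu (mp_sup h2))
    · intro j
      have := e4 j
      simp only [Finsupp.add_apply, Finsupp.smul_apply, smul_eq_mul, mp_Np, mm_Np]
      omega
    · intro j
      have := e3 j
      simp only [Finsupp.add_apply, Finsupp.smul_apply, smul_eq_mul, mp_Nm, mm_Nm]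
      omega
  · refine ⟨v (Nm h2 0) - u (Nm h2 0), Or.inl ?_⟩
    apply ext_sup _ _ (sup_add _ _ _ hu (mm_sup h2)) (sup_add _ _ _ hv (mp_sup h2))
    · intro j
      have := e4 j
      simp only [Finsupp.add_apply, Finsupp.smul_apply, smul_eq_mul, mp_Np, mm_Np]
      omega
    · intro j
      have := e3 j
      simp only [Finsupp.add_apply, Finsupp.smul_apply, smul_eq_mul, mp_Nm, mm_Nm]
      omega

lemma mp_mm_dis (s : {M // P M}) : mp h2 s = 0 ∨ mm h2 s = 0 := by
  by_cases h : mp h2 s = 0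
  · exact Or.inl h
  · right
    obtain ⟨i, rfl | rfl⟩ := sup_cases h2 (mp_sup h2) s h
    · exact mm_Np h2 i
    · exact absurd (mp_Nm h2 i) h

/-- **The fibre has two elements.** -/
lemma fibre {m : {M // P M} →₀ ℕ} (hm : Sup m)
    (hW : Wt (fun M : {M // P M} => wtM M.1) m = Wt (fun M : {M // P M} => wtM M.1) (mp h2)) :
    m = mp h2 ∨ m = mm h2 := by
  obtain ⟨t, ht | ht⟩ := rank_one h2 hm (mp_sup h2) hW
  · left
    have h3 := DFunLike.congr_fun ht (Nm h2 0)
    simp only [Finsupp.add_apply, Finsupp.smul_apply, smul_eq_mul, mp_Nm, mm_Nm] at h3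
    have : t = 0 := by omega
    subst this
    simpa using ht
  · have h3 := DFunLike.congr_fun ht (Np h2 0)
    simp only [Finsupp.add_apply, Finsupp.smul_apply, smul_eq_mul, mp_Np, mm_Np] at h3
    have h4 : t = 0 ∨ t = 1 := by omega
    rcases h4 with rfl | rfl
    · left
      simpa using ht.symm
    · right
      rw [one_smul, one_smul, add_comm] at ht
      exact (add_right_cancel ht).symm

end

end Pool.Agent.KS6_2.MT
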