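import Mathlib

/-! # Toric ideals: fibres and degrees of generators -/

namespace Pool.Agent.KS6_2.MT

open Finset MvPolynomial

variable {σ τ : Type*} {K : Type*} [Field K]

/-- the weight of an exponent vector -/
noncomputable def Wt (wt : σ → τ →₀ ℕ) (m : σ →₀ ℕ) : τ →₀ ℕ := m.sum fun s n => n • wt s

lemma Wt_add (wt : σ → τ →₀ ℕ) (m n : σ →₀ ℕ) : Wt wt (m + n) = Wt wt m + Wt wt n :=
  Finsupp.sum_add_index' (fun _ => zero_smul _ _) (fun _ _ _ => add_smul _ _ _)

lemma Wt_zero (wt : σ → τ →₀ ℕ) : Wt wt 0 = 0 := by simp [Wt]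

lemma Wt_single (wt : σ → τ →₀ ℕ) (s : σ) (n : ℕ) : Wt wt (Finsupp.single s n) = n • wt s :=
  Finsupp.sum_single_index (zero_smul _ _)

/-- the toric map -/
noncomputable def phi (K : Type*) [Field K] (wt : σ → τ →₀ ℕ) :
    MvPolynomial σ K →ₐ[K] MvPolynomial τ K :=
  aeval fun s => monomial (wt s) (1 : K)

lemma phi_monomial (wt : σ → τ →₀ ℕ) (m : σ →₀ ℕ) (c : K) :
    phi K wt (monomial m c) = monomial (Wt wt m) c := by
  classical
  unfold phi Wt
  rw [aeval_monomial, Finsupp.prod]
  have : ∀ s ∈ m.support, (monomial (wt s) (1 : K)) ^ m s = monomial (m s • wt s) (1 : K) := by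
    intro s _
    rw [monomial_pow, one_pow]
  rw [Finset.prod_congr rfl this, Finsupp.sum]
  have h2 : ∀ T : Finset σ, ∏ x ∈ T, monomial (m x • wt x) (1 : K) =
      monomial (∑ x ∈ T, m x • wt x) (1 : K) := by
    intro T
    induction T using Finset.induction_on with
    | empty => simp
    | insert a s ha ih => rw [Finset.prod_insert ha, Finset.sum_insert ha, ih, monomial_mul, one_mul]
  rw [h2, MvPolynomial.algebraMap_eq, C_mul_monomial, mul_one]

open Classical in
lemma coeff_phi (wt : σ → τ →₀ ℕ) (g : MvPolynomial σ K) (ω : τ →₀ ℕ) :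
    coeff ω (phi K wt g) = ∑ b ∈ g.support, if Wt wt b = ω then coeff b g else 0 := by
  conv_lhs => rw [← support_sum_monomial_coeff g]
  rw [map_sum, coeff_sum]
  refine Finset.sum_congr rfl fun b _ => ?_
  rw [phi_monomial, coeff_monomial]

/-- **Degrees of generators from a disconnected fibre.** -/
theorem exists_degree (wt : σ → τ →₀ ℕ) (ω : τ →₀ ℕ) (P : (σ →₀ ℕ) → Prop) (m1 m2 : σ →₀ ℕ)
    (h1 : Wt wt m1 = ω) (h2 : Wt wt m2 = ω) (hP1 : P m1) (hP2 : ¬ P m2) (d : ℕ)
    (hd : ∀ m, Wt wt m = ω → m.degree = d)
    (hsep : ∀ m m', Wt wt m = ω → Wt wt m' = ω → P m → ¬ P m' → ∀ s, m s = 0 ∨ m' s = 0)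
    (S : Set (MvPolynomial σ K)) (hS : Ideal.span S = RingHom.ker (phi K wt)) :
    ∃ f ∈ S, d ≤ f.totalDegree := by
  classical
  by_contra hcon
  push Not at hcon
  -- the linear functional
  set L : MvPolynomial σ K → K := fun f =>
    ∑ m ∈ f.support, if Wt wt m = ω ∧ P m then coeff m f else 0 with hL
  have Lsum : ∀ (f : MvPolynomial σ K) (T : Finset (σ →₀ ℕ)), f.support ⊆ T →
      L f = ∑ m ∈ T, if Wt wt m = ω ∧ P m then coeff m f else 0 := by
    intro f T hT
    refine Finset.sum_subset hT fun m _ hm => ?_
    rw [notMem_support_iff.1 hm]; simp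
  have Ladd : ∀ f g, L (f + g) = L f + L g := by
    intro f g
    rw [Lsum (f + g) (f.support ∪ g.support) (support_add), Lsum f (f.support ∪ g.support)
      Finset.subset_union_left, Lsum g (f.support ∪ g.support) Finset.subset_union_right,
      ← Finset.sum_add_distrib]
    refine Finset.sum_congr rfl fun m _ => ?_
    split_ifs <;> simp
  have Lzero : L 0 = 0 := by simp [hL]
  -- products with elements of the kernel of small degree
  have key : ∀ g ∈ S, ∀ a c, L (monomial a c * g) = 0 := by
    intro g hg a c
    have hker : phi K wt g = 0 := by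
      have : g ∈ RingHom.ker (phi K wt) := by rw [← hS]; exact Ideal.subset_span hg
      exact (RingHom.mem_ker).1 this
    have hdeg := hcon g hg
    have e1 : L (monomial a c * g) = ∑ b ∈ g.support, if Wt wt (a + b) = ω ∧ P (a + b) then
        c * coeff b g else 0 := by
      have hsub : (monomial a c * g).support ⊆ g.support.map (addLeftEmbedding a) := by
        intro m hm
        rw [mem_support_iff] at hm
        rw [coeff_monomial_mul'] at hm
        split_ifs at hm with hle
        · rw [Finset.mem_map]
          refine ⟨m - a, ?_, ?_⟩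
          · rw [mem_support_iff]; intro h0; exact hm (by rw [h0, mul_zero])
          · simp only [addLeftEmbedding_apply]; exact add_tsub_cancel_of_le hle
        · exact absurd rfl hm
      rw [Lsum _ _ hsub, Finset.sum_map]
      refine Finset.sum_congr rfl fun b _ => ?_
      simp only [addLeftEmbedding_apply]
      rw [coeff_monomial_mul]
    rw [e1]
    by_cases ha : a = 0
    · refine Finset.sum_eq_zero fun b hb => ?_
      rw [if_neg]
      rintro ⟨hw, -⟩
      subst ha
      rw [zero_add] at hw
      have := hd b hw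
      have h3 : b.degree ≤ g.totalDegree := by
        rw [Finsupp.degree_apply]
        exact le_totalDegree hb
      omega
    · obtain ⟨s, hs⟩ : ∃ s, a s ≠ 0 := by
        by_contra hall
        push Not at hall
        exact ha (Finsupp.ext hall)
      by_cases hex : ∃ b ∈ g.support, Wt wt (a + b) = ω ∧ P (a + b)
      · obtain ⟨b0, hb0, hw0, hp0⟩ := hex
        have hall : ∀ b ∈ g.support, Wt wt (a + b) = ω → P (a + b) := by
          intro b hb hw
          by_contra hn
          rcases hsep _ _ hw0 hw hp0 hn s with h | h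
          · rw [Finsupp.add_apply] at h; omega
          · rw [Finsupp.add_apply] at h; omega
        have hle : Wt wt a ≤ ω := by
          rw [← hw0, Wt_add]; exact le_self_add
        have e2 : (∑ b ∈ g.support, if Wt wt (a + b) = ω ∧ P (a + b) then c * coeff b g else 0) =
            c * coeff (ω - Wt wt a) (phi K wt g) := by
          rw [coeff_phi, Finset.mul_sum]
          refine Finset.sum_congr rfl fun b hb => ?_
          by_cases hw : Wt wt (a + b) = ω
          · rw [if_pos ⟨hw, hall b hb hw⟩, if_pos]
            rw [← hw, Wt_add, add_tsub_cancel_left]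
          · rw [if_neg (fun h => hw h.1), if_neg, mul_zero]
            intro h
            apply hw
            rw [Wt_add, h]
            exact add_tsub_cancel_of_le hle
        rw [e2, hker, coeff_zero, mul_zero]
      · push Not at hex
        refine Finset.sum_eq_zero fun b hb => ?_
        rw [if_neg]
        rintro ⟨hw, hp⟩
        exact hex b hb hw hp
  have key2 : ∀ g ∈ S, ∀ h, L (h * g) = 0 := by
    intro g hg h
    induction h using MvPolynomial.induction_on' with
    | monomial a c => exact key g hg a c
    | add p q hp hq => rw [add_mul, Ladd, hp, hq, add_zero]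
  have key3 : ∀ f ∈ Ideal.span S, ∀ h, L (h * f) = 0 := by
    intro f hf
    refine Submodule.span_induction (p := fun f _ => ∀ h, L (h * f) = 0) ?_ ?_ ?_ ?_ hf
    · intro g hg h; exact key2 g hg h
    · intro h; rw [mul_zero, Lzero]
    · intro x y _ _ hx hy h; rw [mul_add, Ladd, hx, hy, add_zero]
    · intro a x _ hx h
      rw [smul_eq_mul, ← mul_assoc]; exact hx _
  have hf0 : (monomial m1 (1 : K) - monomial m2 1) ∈ Ideal.span S := by
    rw [hS, RingHom.mem_ker, map_sub]
    change phi K wt (monomial m1 1) - phi K wt (monomial m2 1) = 0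
    rw [phi_monomial, phi_monomial, h1, h2, sub_self]
  have hne : m1 ≠ m2 := fun h => hP2 (h ▸ hP1)
  have h4 := key3 _ hf0 1
  rw [one_mul] at h4
  have hsub : (monomial m1 (1 : K) - monomial m2 1).support ⊆ {m1, m2} := by
    intro m hm
    rw [mem_support_iff, coeff_sub, coeff_monomial, coeff_monomial] at hm
    simp only [Finset.mem_insert, Finset.mem_singleton]
    by_contra hn
    push Not at hn
    rw [if_neg (Ne.symm hn.1), if_neg (Ne.symm hn.2)] at hm
    simp at hm
  rw [Lsum _ _ hsub, Finset.sum_pair hne, if_pos ⟨h1, hP1⟩, if_neg (fun h => hP2 h.2), add_zero,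
    coeff_sub, coeff_monomial, coeff_monomial, if_pos rfl, if_neg (Ne.symm hne), sub_zero] at h4
  exact one_ne_zero h4

end Pool.Agent.KS6_2.MT
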